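import Mathlib
import Pool.Agent.Helper34.Shear

/-!
`f(n, √n) ≥ c √n`: every set of `n` points in the plane with at most `√n` collinear contains
`c √n` points in general position.
-/

set_option autoImplicit false

namespace Pool.Agent.Results.MP_3a59ef_co.SqrtGeneralPosition

open Finset

/-- The Euclidean plane. -/
abbrev Plane : Type := EuclideanSpace ℝ (Fin 2)

/-- A line of the plane: an affine subspace whose direction is one-dimensional. -/
def IsLine (M : AffineSubspace ℝ Plane) : Prop := Module.finrank ℝ M.direction = 1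

/-- `P` has at most `ℓ` collinear: every line contains at most `ℓ` points of `P`. -/
def AtMostCollinear (ℓ : ℝ) (P : Finset Plane) : Prop :=
  ∀ M : AffineSubspace ℝ Plane, IsLine M → (((P : Set Plane) ∩ M).ncard : ℝ) ≤ ℓ

/-- `S` is in general position: no three of its points lie on a common line. -/
def GeneralPosition (S : Finset Plane) : Prop :=
  ∀ M : AffineSubspace ℝ Plane, IsLine M → ((S : Set Plane) ∩ M).ncard < 3

/-- `f(n, ℓ) = min_P max {|S| : S ⊆ P, S in general position}`, the minimum over all sets `P` of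
exactly `n` points with at most `ℓ` collinear. -/
noncomputable def f (n : ℕ) (ℓ : ℝ) : ℕ :=
  sInf {m : ℕ | ∃ P : Finset Plane, P.card = n ∧ AtMostCollinear ℓ P ∧
    m = sSup {s : ℕ | ∃ S ⊆ P, GeneralPosition S ∧ s = S.card}}

/-- the plane as a product -/
noncomputable def toProd : Plane ≃ₗ[ℝ] ℝ × ℝ where
  toFun x := (x 0, x 1)
  invFun p := WithLp.toLp 2 ![p.1, p.2]
  map_add' x y := rfl
  map_smul' c x := rfl
  left_inv x := by
    ext i; fin_cases i <;> rfl
  right_inv p := rfl

theorem collinear_image {V W : Type} [AddCommGroup V] [Module ℝ V] [AddCommGroup W] [Module ℝ W]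
    (g : V ≃ₗ[ℝ] W) {T : Set V} (h : Collinear ℝ T) : Collinear ℝ (g '' T) := by
  rw [collinear_iff_exists_forall_eq_smul_vadd] at h ⊢
  obtain ⟨p₀, v, hv⟩ := h
  refine ⟨g p₀, g v, ?_⟩
  rintro q ⟨p, hp, rfl⟩
  obtain ⟨r, hr⟩ := hv p hp
  refine ⟨r, ?_⟩
  rw [hr]
  simp [vadd_eq_add]

theorem collinear_map_iff (T : Set Plane) : Collinear ℝ (toProd '' T) ↔ Collinear ℝ T := by
  constructor
  · intro h
    have h2 := collinear_image toProd.symm h
    rwa [Set.image_image, show (fun x => toProd.symm (toProd x)) = id from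
      funext fun x => toProd.symm_apply_apply x, Set.image_id] at h2
  · intro h
    exact collinear_image toProd h

/-- collinear sets with at least two points span a line -/
theorem exists_line {T : Set Plane} (h : Collinear ℝ T) (h0 : T.Nontrivial) :
    ∃ M : AffineSubspace ℝ Plane, IsLine M ∧ T ⊆ M := by
  obtain ⟨x, hx, y, hy, hxy⟩ := h0
  refine ⟨affineSpan ℝ {x, y}, ?_, ?_⟩
  · unfold IsLine
    rw [direction_affineSpan, vectorSpan_pair_rev]
    exact finrank_span_singleton (by
      rw [vsub_ne_zero]
      exact fun h => hxy h.symm)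
  · intro z hz
    exact h.mem_affineSpan_of_mem_of_ne hx hy hz hxy

/-- a set inside a line is collinear -/
theorem IsLine.collinear {M : AffineSubspace ℝ Plane} (hM : IsLine M) {T : Set Plane}
    (hT : T ⊆ M) : Collinear ℝ T := by
  rw [collinear_iff_finrank_le_one]
  have h1 : vectorSpan ℝ T ≤ M.direction := by
    rw [← direction_affineSpan]
    exact AffineSubspace.direction_le (affineSpan_le.2 hT)
  exact (Submodule.finrank_mono h1).trans (le_of_eq hM)

/-- points on a parabola are in general position -/
theorem exists_generalPosition (n : ℕ) : ∃ P : Finset Plane, P.card = n ∧ GeneralPosition P := by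
  classical
  let g : ℕ → Plane := fun i => WithLp.toLp 2 ![(i : ℝ), (i : ℝ) ^ 2]
  have hg : Function.Injective g := by
    intro i j hij
    have h1 : (g i) 0 = (g j) 0 := by rw [hij]
    have h2 : (i : ℝ) = j := h1
    exact_mod_cast h2
  refine ⟨(Finset.range n).image g, by rw [Finset.card_image_of_injective _ hg, card_range], ?_⟩
  intro M hM
  by_contra hcon
  rw [not_lt] at hcon
  have h3 : ∃ T : Finset Plane, (T : Set Plane) ⊆ (((Finset.range n).image g : Finset Plane) : Set Plane) ∩ M
      ∧ T.card = 3 := by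
    have hfin : ((((Finset.range n).image g : Finset Plane) : Set Plane) ∩ M).Finite :=
      (Finset.finite_toSet _).inter_of_left _
    rw [Set.ncard_eq_toFinset_card _ hfin] at hcon
    obtain ⟨T, hT1, hT2⟩ := Finset.exists_subset_card_eq hcon
    refine ⟨T, ?_, hT2⟩
    intro x hx
    have := hT1 (Finset.mem_coe.1 hx)
    rwa [Set.Finite.mem_toFinset] at this
  obtain ⟨T, hT, hT3⟩ := h3
  obtain ⟨x, y, z, hxy, hxz, hyz, rfl⟩ := Finset.card_eq_three.1 hT3
  have hcol : Collinear ℝ ({x, y, z} : Set Plane) := hM.collinear (by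
    intro w hw
    exact (hT (by simpa using hw)).2)
  have hx : x ∈ (Finset.range n).image g := by
    have := (hT (show x ∈ (({x, y, z} : Finset Plane) : Set Plane) by simp)).1
    simpa using this
  have hy : y ∈ (Finset.range n).image g := by
    have := (hT (show y ∈ (({x, y, z} : Finset Plane) : Set Plane) by simp)).1
    simpa using this
  have hz : z ∈ (Finset.range n).image g := by
    have := (hT (show z ∈ (({x, y, z} : Finset Plane) : Set Plane) by simp)).1
    simpa using this
  rw [mem_image] at hx hy hz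
  obtain ⟨i, _, rfl⟩ := hx
  obtain ⟨j, _, rfl⟩ := hy
  obtain ⟨k, _, rfl⟩ := hz
  have hij : (i : ℝ) ≠ j := by
    intro h; exact hxy (by rw [show i = j by exact_mod_cast h])
  have hik : (i : ℝ) ≠ k := by
    intro h; exact hxz (by rw [show i = k by exact_mod_cast h])
  have hjk : (j : ℝ) ≠ k := by
    intro h; exact hyz (by rw [show j = k by exact_mod_cast h])
  rw [collinear_iff_of_mem (p₀ := g i) (by simp)] at hcol
  obtain ⟨v, hv⟩ := hcol
  obtain ⟨r, hr⟩ := hv (g j) (by simp)
  obtain ⟨s, hs⟩ := hv (g k) (by simp)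
  have r0 : (j : ℝ) = r * v 0 + i := congrFun (congrArg WithLp.ofLp hr) 0
  have r1 : (j : ℝ) ^ 2 = r * v 1 + (i : ℝ) ^ 2 := congrFun (congrArg WithLp.ofLp hr) 1
  have s0 : (k : ℝ) = s * v 0 + i := congrFun (congrArg WithLp.ofLp hs) 0
  have s1 : (k : ℝ) ^ 2 = s * v 1 + (i : ℝ) ^ 2 := congrFun (congrArg WithLp.ofLp hs) 1
  have e1 : ((j : ℝ) - i) * ((k : ℝ) ^ 2 - i ^ 2) = ((k : ℝ) - i) * ((j : ℝ) ^ 2 - i ^ 2) := by
    linear_combination (r * v 0) * s1 - (s * v 0) * r1 + ((k : ℝ) ^ 2 - i ^ 2) * r0
      - ((j : ℝ) ^ 2 - i ^ 2) * s0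
  have e2 : ((j : ℝ) - i) * ((k : ℝ) - i) * ((k : ℝ) - j) = 0 := by
    linear_combination e1
  rcases mul_eq_zero.1 e2 with h | h
  · rcases mul_eq_zero.1 h with h | h
    · exact hij (by linarith)
    · exact hik (by linarith)
  · exact hjk (by linarith)

/-- **General position subsets when at most `√n` points are collinear.** There is an absolute
constant `c > 0` such that every finite set `P` of points of the plane with at most `√|P|` collinear
contains a subset in general position with at least `c √|P|` points; hence `f(n, √n) ≥ c √n` for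
every `n ≥ 4` (the `n` for which `ℓ = √n ≥ 2`). -/
theorem result : ∃ c : ℝ, 0 < c ∧
    (∀ P : Finset Plane, AtMostCollinear (Real.sqrt P.card) P →
      ∃ S ⊆ P, GeneralPosition S ∧ c * Real.sqrt P.card ≤ S.card) ∧
    ∀ n : ℕ, 4 ≤ n → c * Real.sqrt n ≤ f n (Real.sqrt n) := by
  classical
  obtain ⟨c, hc, hmain⟩ := Pool.Agent.Helper34.main_small_large
  have key : ∀ P : Finset Plane, AtMostCollinear (Real.sqrt P.card) P →
      ∃ S ⊆ P, GeneralPosition S ∧ min c 1 * Real.sqrt P.card ≤ S.card := by
    intro P hP
    rcases Nat.eq_zero_or_pos P.card with h0 | h0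
    · refine ⟨∅, Finset.empty_subset _, ?_, ?_⟩
      · intro M _
        simp
      · rw [h0]; simp
    have hone : (1 : ℝ) ≤ Real.sqrt P.card := by
      rw [Real.one_le_sqrt]
      exact_mod_cast h0
    have hinj := toProd.injective
    obtain ⟨S, hSP, hS, hSc⟩ := hmain (P.image toProd) (by
      intro T hT hcol
      rw [Finset.card_image_of_injective _ hinj]
      have h1 : T = (P.filter fun p => toProd p ∈ T).image toProd := by
        ext q
        rw [mem_image]
        constructor
        · intro hq
          obtain ⟨p, hp, rfl⟩ := mem_image.1 (hT hq)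
          exact ⟨p, mem_filter.2 ⟨hp, hq⟩, rfl⟩
        · rintro ⟨p, hp, rfl⟩
          exact (mem_filter.1 hp).2
      rw [h1, Finset.card_image_of_injective _ hinj]
      rw [h1, Finset.coe_image, collinear_map_iff] at hcol
      by_cases hnt : ((P.filter fun p => toProd p ∈ T : Finset Plane) : Set Plane).Nontrivial
      · obtain ⟨M, hM, hTM⟩ := exists_line hcol hnt
        refine le_trans ?_ (hP M hM)
        have h2 : (P.filter fun p => toProd p ∈ T).card
            ≤ ((P : Set Plane) ∩ M).ncard := by
          rw [← Set.ncard_coe_finset]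
          refine Set.ncard_le_ncard ?_ ((Finset.finite_toSet _).inter_of_left _)
          intro p hp
          exact ⟨(mem_filter.1 (Finset.mem_coe.1 hp)).1, hTM hp⟩
        exact_mod_cast h2
      · rw [Set.not_nontrivial_iff] at hnt
        have h2 : (P.filter fun p => toProd p ∈ T).card ≤ 1 :=
          Finset.card_le_one.2 fun a ha b hb => hnt ha hb
        have h3 : ((P.filter fun p => toProd p ∈ T).card : ℝ) ≤ 1 := by exact_mod_cast h2
        linarith)
    refine ⟨P.filter fun p => toProd p ∈ S, Finset.filter_subset _ _, ?_, ?_⟩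
    · intro M hM
      by_contra hcon
      rw [not_lt] at hcon
      have hfin : (((P.filter fun p => toProd p ∈ S : Finset Plane) : Set Plane) ∩ M).Finite :=
        (Finset.finite_toSet _).inter_of_left _
      rw [Set.ncard_eq_toFinset_card _ hfin] at hcon
      obtain ⟨T, hT1, hT3⟩ := Finset.exists_subset_card_eq hcon
      have hT2 : ∀ x ∈ T, toProd x ∈ S ∧ x ∈ M := by
        intro x hx
        have := hT1 hx
        rw [Set.Finite.mem_toFinset] at this
        exact ⟨(mem_filter.1 (Finset.mem_coe.1 this.1)).2, this.2⟩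
      refine hS (T.image toProd) ?_ ?_ ?_
      · intro q hq
        obtain ⟨p, hp, rfl⟩ := mem_image.1 hq
        exact (hT2 p hp).1
      · rw [Finset.card_image_of_injective _ hinj, hT3]
      · rw [Finset.coe_image, collinear_map_iff]
        exact hM.collinear fun x hx => (hT2 x (Finset.mem_coe.1 hx)).2
    · rw [Finset.card_image_of_injective _ hinj] at hSc
      have h1 : S = (P.filter fun p => toProd p ∈ S).image toProd := by
        ext q
        rw [mem_image]
        constructor
        · intro hq
          obtain ⟨p, hp, rfl⟩ := mem_image.1 (hSP hq)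
          exact ⟨p, mem_filter.2 ⟨hp, hq⟩, rfl⟩
        · rintro ⟨p, hp, rfl⟩
          exact (mem_filter.1 hp).2
      have h2 : S.card = (P.filter fun p => toProd p ∈ S).card := by
        conv_lhs => rw [h1]
        exact Finset.card_image_of_injective _ hinj
      rw [← h2]
      exact le_trans (mul_le_mul_of_nonneg_right (min_le_left _ _) (Real.sqrt_nonneg _)) hSc
  refine ⟨min c 1, lt_min hc one_pos, key, ?_⟩
  intro n hn
  have hne : {m : ℕ | ∃ P : Finset Plane, P.card = n ∧ AtMostCollinear (Real.sqrt n) P ∧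
      m = sSup {s : ℕ | ∃ S ⊆ P, GeneralPosition S ∧ s = S.card}}.Nonempty := by
    obtain ⟨P, hPn, hPg⟩ := exists_generalPosition n
    refine ⟨_, P, hPn, ?_, rfl⟩
    intro M hM
    have h1 := hPg M hM
    have h2 : (((P : Set Plane) ∩ M).ncard : ℝ) ≤ 2 := by
      have : ((P : Set Plane) ∩ M).ncard ≤ 2 := by omega
      exact_mod_cast this
    refine h2.trans ?_
    rw [Real.le_sqrt (by norm_num) (by positivity)]
    have : (4 : ℝ) ≤ n := by exact_mod_cast hn
    linarith
  obtain ⟨P, hPn, hPc, hm⟩ := Nat.sInf_mem hne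
  obtain ⟨S, hSP, hSg, hSc⟩ := key P (by rw [hPn]; exact hPc)
  rw [hPn] at hSc
  refine hSc.trans ?_
  have h1 : S.card ≤ f n (Real.sqrt n) := by
    unfold f
    rw [hm]
    apply le_csSup
    · refine ⟨P.card, ?_⟩
      rintro s ⟨S', hS', _, rfl⟩
      exact Finset.card_le_card hS'
    · exact ⟨S, hSP, hSg, rfl⟩
  exact_mod_cast h1

end Pool.Agent.Results.MP_3a59ef_co.SqrtGeneralPosition
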